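import Mathlib
import Pool.Agent.Work.MP_cceb86_pr.NTwo
import Pool.Agent.Work.MP_cceb86_pr.NBlk
import Pool.Agent.Work.MP_cceb86_pr.NPex

/-!
Copolymer near a selective interface: the weak coupling slope of the critical curve near `α = 1`,
namely `m_α - 3/4` is of exact order `(1-α)^{1/4}`.
-/

open MeasureTheory ProbabilityTheory Filter Topology
open Pool.Agent.Cop

namespace Pool.Agent.Results.MP_cceb86_pr.SlopeAtOne

/-- There are `κ > 0` and `α₀ < 1` such that for every `α ∈ (0,1)`, every inter-arrival law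
`K(n) ~ c n^{-(1+α)}` and every charge law, for all small `λ > 0`: the critical point satisfies
`h_c(λ) ≤ (3/4 + 13 (1-α)^{1/4}) λ` and the free energy vanishes above this value; if `α > α₀`
then also `h_c(λ) ≥ (3/4 + κ (1-α)^{1/4}) λ`, the free energy at every `h` up to this value is
bounded below by a positive constant for all large `N`, and
`3/4 + κ (1-α)^{1/4} > (2+α)/(2(1+α))`. -/
theorem result :
    ∃ κ α₀ : ℝ, 0 < κ ∧ α₀ < 1 ∧ ∀ α : ℝ, 0 < α → α < 1 →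
      (α₀ < α → (2 + α) / (2 * (1 + α)) < 3 / 4 + κ * (1 - α) ^ (1 / 4 : ℝ)) ∧
      ∀ c : ℝ, 0 < c → ∀ K : ℕ → ℝ, IsLaw α c K →
      ∀ {Ω Ω' : Type*} [MeasurableSpace Ω] [MeasurableSpace Ω'] (P : Measure Ω)
        [IsProbabilityMeasure P] (Q : Measure Ω') (xi : ℕ → Ω → ℕ) (eps : ℕ → Ω → Bool),
        IsModel P K xi eps → ∀ w : ℕ → Ω' → ℝ, IsDisorder Q w →
      ∃ lam₀ : ℝ, 0 < lam₀ ∧ ∀ lam : ℝ, 0 < lam → lam < lam₀ →
        hcrit P xi eps Q w lam ≤ (3 / 4 + 13 * (1 - α) ^ (1 / 4 : ℝ)) * lam ∧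
        (∀ h : ℝ, (3 / 4 + 13 * (1 - α) ^ (1 / 4 : ℝ)) * lam ≤ h →
          Tendsto (fun N : ℕ => freeN P xi eps Q w lam h N) atTop (𝓝 0)) ∧
        (α₀ < α → (3 / 4 + κ * (1 - α) ^ (1 / 4 : ℝ)) * lam ≤ hcrit P xi eps Q w lam ∧
          ∀ h : ℝ, h ≤ (3 / 4 + κ * (1 - α) ^ (1 / 4 : ℝ)) * lam →
            ∃ δ : ℝ, 0 < δ ∧ ∀ᶠ N in atTop, δ ≤ freeN P xi eps Q w lam h N) :=
  near_of n_block np_exists

end Pool.Agent.Results.MP_cceb86_pr.SlopeAtOne
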