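import Mathlib
import Pool.Agent.Work.MP_cceb86_pr.FinSharp
import Pool.Agent.Work.MP_cceb86_pr.BaseLev

/-!
Copolymer near a selective interface: the weak coupling slope of the critical curve to second
order as `α → 0`, namely `m_α = 1/(1+α) + (2 + o(1)) α²`.
-/

open MeasureTheory ProbabilityTheory Filter Topology
open Pool.Agent.Cop

namespace Pool.Agent.Results.MP_cceb86_pr.SlopeSharp

/-- For every `ε > 0` there is `α₀ > 0` such that for every `α ∈ (0,α₀)`, every inter-arrival law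
`K(n) ~ c n^{-(1+α)}` and every charge law, for all small `λ > 0`: the critical point satisfies
`(1/(1+α) + (2-ε) α²) λ ≤ h_c(λ) ≤ (1/(1+α) + (2+ε) α²) λ`; the free energy at every `h` below the
lower value is bounded below by a positive constant for all large `N`, and at every `h` above the
upper value it tends to zero. -/
theorem result (ε : ℝ) (hε : 0 < ε) :
    ∃ α₀ : ℝ, 0 < α₀ ∧ ∀ α : ℝ, 0 < α → α < α₀ → ∀ c : ℝ, 0 < c → ∀ K : ℕ → ℝ, IsLaw α c K →
      ∀ {Ω Ω' : Type*} [MeasurableSpace Ω] [MeasurableSpace Ω'] (P : Measure Ω)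
        [IsProbabilityMeasure P] (Q : Measure Ω') (xi : ℕ → Ω → ℕ) (eps : ℕ → Ω → Bool),
        IsModel P K xi eps → ∀ w : ℕ → Ω' → ℝ, IsDisorder Q w →
      ∃ lam₀ : ℝ, 0 < lam₀ ∧ ∀ lam : ℝ, 0 < lam → lam < lam₀ →
        (1 / (1 + α) + (2 - ε) * α ^ 2) * lam ≤ hcrit P xi eps Q w lam ∧
        hcrit P xi eps Q w lam ≤ (1 / (1 + α) + (2 + ε) * α ^ 2) * lam ∧
        (∀ h : ℝ, h ≤ (1 / (1 + α) + (2 - ε) * α ^ 2) * lam →
          ∃ δ : ℝ, 0 < δ ∧ ∀ᶠ N in atTop, δ ≤ freeN P xi eps Q w lam h N) ∧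
        (∀ h : ℝ, (1 / (1 + α) + (2 + ε) * α ^ 2) * lam ≤ h →
          Tendsto (fun N : ℕ => freeN P xi eps Q w lam h N) atTop (𝓝 0)) :=
  sharp_of (fun _ _ _ _ h1 h2 h3 h4 h5 => base_lev h1 h2 h3 h4 h5) ε hε

end Pool.Agent.Results.MP_cceb86_pr.SlopeSharp
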